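import Mathlib

set_option autoImplicit false

/-!
# Project TL: the ℓ-torsion conjecture follows from sparse exceptional sets (MP_695920_nt)
-/

namespace Pool.Agent.W670.TL

open NumberField

noncomputable section

/-- The number of ideal classes killed by `ℓ`. -/
def tors (K : Type) [Field K] [NumberField K] (ℓ : ℕ) : ℕ :=
  Nat.card {x : ClassGroup (𝓞 K) // x ^ ℓ = 1}

/-- The absolute discriminant. -/
def D (K : Type) [Field K] [NumberField K] : ℝ := |(discr K : ℝ)|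

/-- `C_{n,ℓ}(Δ)`. -/
def TC (n ℓ : ℕ) (Δ : ℝ) : Prop :=
  ∀ ε : ℝ, 0 < ε → ∃ C : ℝ, ∀ (K : Type) [Field K] [NumberField K], Module.finrank ℚ K = n →
    (tors K ℓ : ℝ) ≤ C * D K ^ (Δ + ε)

/-- The fields `M` of degree `N` and `D_M ≤ Y` with more than `D_M ^ κ` classes killed by `ℓ`. -/
def exc (N ℓ : ℕ) (κ Y : ℝ) : Set (IntermediateField ℚ (AlgebraicClosure ℚ)) :=
  {M | Module.finrank ℚ M = N ∧ ∃ _ : NumberField M, D M ≤ Y ∧ D M ^ κ < tors M ℓ}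

/-- `C_{N,ℓ}(Δ)` up to `O(Y ^ θ)` exceptions of absolute discriminant at most `Y`. -/
def Sparse (N ℓ : ℕ) (Δ θ : ℝ) : Prop :=
  ∀ δ : ℝ, 0 < δ → ∃ C : ℝ, ∀ Y : ℝ, 1 ≤ Y → ((exc N ℓ (Δ + δ) Y).ncard : ℝ) ≤ C * Y ^ θ

/-- INJ -/
def S_INJ : Prop := ∀ (K M : Type) [Field K] [NumberField K] [Field M] [NumberField M]
  [Algebra K M] (ℓ : ℕ), Nat.Coprime (Module.finrank K M) ℓ → tors K ℓ ≤ tors M ℓ

/-- DSC -/
def S_DSC : Prop := ∀ (K M : Type) [Field K] [NumberField K] [Field M] [NumberField M]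
  [Algebra K M] (q d : ℕ) (a : M), Module.finrank K M = q → 1 ≤ q → 1 ≤ d → a ^ q = (d : M) →
  IntermediateField.adjoin K {a} = ⊤ →
  D M ≤ D K ^ q * ((q : ℝ) ^ q * (d : ℝ) ^ (q - 1)) ^ Module.finrank ℚ K

/-- RAM -/
def S_RAM : Prop := ∀ (M : Type) [Field M] [NumberField M] (q p : ℕ) (a : M), p.Prime → 2 ≤ q →
  a ^ q = (p : M) → (p : ℤ) ∣ discr M

/-- CHB -/
def S_CHB : Prop := ∀ τ : ℝ, 0 < τ → ∃ c : ℝ, 0 < c ∧ ∀ Z : ℕ, 2 ≤ Z →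
  c * (Z : ℝ) ^ (1 - τ) ≤ (Finset.card ((Finset.range (Z + 1)).filter Nat.Prime) : ℝ)

/-- EXT (from INJ, DSC) -/
def S_EXT : Prop := ∀ (K : IntermediateField ℚ (AlgebraicClosure ℚ)) (_ : NumberField K)
  (n q ℓ p : ℕ), Module.finrank ℚ K = n → q.Prime → Nat.Coprime q ℓ → p.Prime →
  (¬ ∃ a : K, a ^ q = (p : K)) →
  ∃ (M : IntermediateField ℚ (AlgebraicClosure ℚ)) (_ : NumberField M),
    Module.finrank ℚ M = q * n ∧ (∃ a : M, a ^ q = (p : M)) ∧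
    D M ≤ D K ^ q * ((q : ℝ) ^ q * (p : ℝ) ^ (q - 1)) ^ n ∧ tors K ℓ ≤ tors M ℓ

/-- HER: Hermite -/
def S_HER : Prop := ∀ Y : ℝ, {M : IntermediateField ℚ (AlgebraicClosure ℚ) |
  ∃ _ : NumberField M, D M ≤ Y}.Finite

/-- NPR (from RAM): few primes are `q`-th powers in `M`. -/
def S_NPR : Prop := ∀ (M : Type) [Field M] [NumberField M] (q Z : ℕ) (Y : ℝ), 2 ≤ q → D M ≤ Y →
  (Set.ncard {p : ℕ | p.Prime ∧ p ≤ Z ∧ ∃ a : M, a ^ q = (p : M)} : ℝ) ≤ Real.logb 2 Y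

/-- CNT (from EXT, NPR, HER) -/
def S_CNT : Prop := ∀ (K : IntermediateField ℚ (AlgebraicClosure ℚ)) (_ : NumberField K)
  (n q ℓ Z : ℕ) (κ Y : ℝ), Module.finrank ℚ K = n → q.Prime → Nat.Coprime q ℓ → 2 ≤ Z → 0 ≤ κ →
  Y = D K ^ q * ((q : ℝ) ^ q * (Z : ℝ) ^ (q - 1)) ^ n → Y ^ κ < tors K ℓ →
  (Finset.card ((Finset.range (Z + 1)).filter Nat.Prime) : ℝ) ≤
    Real.logb 2 (D K) + (exc (q * n) ℓ κ Y).ncard * Real.logb 2 Y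

/-- MOD: every number field has a copy in the algebraic closure. -/
def S_MOD : Prop := ∀ (K : Type) [Field K] [NumberField K],
  ∃ (K' : IntermediateField ℚ (AlgebraicClosure ℚ)) (_ : NumberField K'),
    Module.finrank ℚ K' = Module.finrank ℚ K ∧ D K' = D K ∧ ∀ ℓ, tors K' ℓ = tors K ℓ

/-- BIG (pure analysis, from CHB, CNT): the bound for `D K` large. -/
def S_BIG : Prop := ∀ (n q ℓ : ℕ) (Δ θ : ℝ), 1 ≤ n → q.Prime → Nat.Coprime q ℓ → 0 ≤ Δ → 0 ≤ θ →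
  (n : ℝ) * (q - 1) * θ < 1 → Sparse (q * n) ℓ Δ θ → ∀ ε : ℝ, 0 < ε → ∃ D₀ : ℝ,
  ∀ (K : IntermediateField ℚ (AlgebraicClosure ℚ)) (_ : NumberField K), Module.finrank ℚ K = n →
    D₀ ≤ D K → (tors K ℓ : ℝ) ≤ D K ^ (q * Δ / (1 - n * (q - 1) * θ) + ε)

/-- FIN (from BIG, MOD, HER): the theorem. -/
def S_FIN : Prop := ∀ (n q ℓ : ℕ) (Δ θ : ℝ), 1 ≤ n → q.Prime → Nat.Coprime q ℓ → 0 ≤ Δ → 0 ≤ θ →
  (n : ℝ) * (q - 1) * θ < 1 → Sparse (q * n) ℓ Δ θ → TC n ℓ (q * Δ / (1 - n * (q - 1) * θ))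

/-- CNV (from HER): the converse. -/
def S_CNV : Prop := ∀ (N ℓ : ℕ), TC N ℓ 0 → Sparse N ℓ 0 0

/-- The equivalence. -/
def S_EQV : Prop :=
  (∀ n : ℕ, 2 ≤ n → ∀ ℓ : ℕ, ℓ.Prime → TC n ℓ 0) ↔
  (∀ n : ℕ, 2 ≤ n → ∀ ℓ : ℕ, ℓ.Prime → ∃ (q : ℕ) (θ : ℝ), q.Prime ∧ q ≠ ℓ ∧ 0 ≤ θ ∧
    (n : ℝ) * (q - 1) * θ < 1 ∧ Sparse (q * n) ℓ 0 θ)

end

end Pool.Agent.W670.TL
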