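import Pool.Agent.W670.TL.Defs

set_option autoImplicit false

namespace Pool.Agent.W670.TL

theorem eqv_of (fin : S_FIN) (cnv : S_CNV) : S_EQV := by
  constructor
  · intro h n hn ℓ hℓ
    by_cases h2 : ℓ = 2
    · refine ⟨3, 0, Nat.prime_three, by omega, le_refl _, by simp, ?_⟩
      exact cnv _ _ (h _ (by omega) ℓ hℓ)
    · refine ⟨2, 0, Nat.prime_two, fun h => h2 h.symm, le_refl _, by simp, ?_⟩
      exact cnv _ _ (h _ (by omega) ℓ hℓ)
  · intro h n hn ℓ hℓ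
    obtain ⟨q, θ, hq, hqℓ, hθ, hlt, hs⟩ := h n hn ℓ hℓ
    have := fin n q ℓ 0 θ (by omega) hq ((Nat.coprime_primes hq hℓ).2 hqℓ) (le_refl _) hθ hlt hs
    rwa [mul_zero, zero_div] at this

end Pool.Agent.W670.TL
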