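import Pool.Agent.W670.TL.Defs
import Pool.Agent.W670.TL.Eqv
import Pool.Agent.W349.TL.Inj
import Pool.Agent.W716.TL.Dsc
import Pool.Agent.W92.TL.Ram
import Pool.Agent.W202.TL.CHB
import Pool.Agent.W318.TL.Ext
import Pool.Agent.W131.TL.Her
import Pool.Agent.W101.TL.NPR
import Pool.Agent.W649.TL.CNT
import Pool.Agent.W14.TL.Mod
import Pool.Agent.W929.TL.BIG
import Pool.Agent.W70.TL.FIN
import Pool.Agent.W62.TL.CNV

set_option autoImplicit false

namespace Pool.Agent.W670.TL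

theorem her : S_HER := Pool.Agent.W131.TL.her
theorem ext : S_EXT := Pool.Agent.W318.TL.ext Pool.Agent.W349.TL.inj Pool.Agent.W716.TL.dsc
theorem cnt : S_CNT := Pool.Agent.W649.TL.cnt ext (Pool.Agent.W101.TL.npr Pool.Agent.W92.TL.ram) her
theorem big : S_BIG := Pool.Agent.W929.TL.big Pool.Agent.W202.TL.chb cnt
theorem fin : S_FIN := Pool.Agent.W70.TL.fin big Pool.Agent.W14.TL.mod her
theorem cnv : S_CNV := Pool.Agent.W62.TL.CNV.cnv her

theorem eqv : S_EQV := eqv_of fin cnv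

end Pool.Agent.W670.TL
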